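import Pool.Agent.Q260.GX.Spec2
import Pool.Agent.Q24.HV.PR

/-!
# Project GX, job ADM: the Laplace transform of the error for one character
-/

set_option autoImplicit false

namespace Pool.Agent.Q190.GX

open MeasureTheory Filter Topology Set Complex
open DirichletCharacter
open Pool.Agent.Q260.GX
open Pool.Agent.Q253.HV (psiC lap Adm ld a_BG a_GR)
open Pool.Agent.Q162.HV (ti lap_diff right)

theorem nonvan {q : ℕ} [NeZero q] {χ : DirichletCharacter ℂ q} (h : GRH1 χ) {s : ℂ} (hs : 1 / 2 < s.re)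
    (h1 : χ ≠ 1 ∨ s ≠ 1) : LFunction χ s ≠ 0 := by
  intro h0
  rcases lt_or_ge s.re 1 with h2 | h2
  · have := h s h0 (by linarith) h2
    linarith
  · exact LFunction_ne_zero_of_one_le_re χ h1 h2 h0

theorem rh_of {q : ℕ} [NeZero q] (h : GRH1 (1 : DirichletCharacter ℂ q)) : RiemannHypothesis := by
  apply Pool.Agent.Q213.GM.RH_of
  intro s hs h0
  have h1 : s.re < 1 := by
    by_contra hc
    exact riemannZeta_ne_zero_of_one_le_re (not_lt.1 hc) h0
  have hs1 : s ≠ 1 := by
    rintro rfl
    simp at h1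
  have h2 := LFunctionTrivChar_eq_mul_riemannZeta (N := q) hs1
  rw [h0, mul_zero] at h2
  have := h s h2 (by linarith) h1
  linarith

theorem adm_one {q : ℕ} [NeZero q] (h : GRH1 (1 : DirichletCharacter ℂ q)) :
    Adm (fun t => psiC (1 : DirichletCharacter ℂ q) (Real.exp t) - (Real.exp t : ℂ)) := by
  have hL := Pool.Agent.Q296.GM.L2_of_rh (rh_of h)
  have hm : Measurable (fun t : ℝ => psiC (1 : DirichletCharacter ℂ q) (Real.exp t) - (Real.exp t : ℂ)) :=
    (Pool.Agent.Q24.HV.psiC_meas (1 : DirichletCharacter ℂ q)).sub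
      (Complex.measurable_ofReal.comp Real.measurable_exp)
  refine ⟨hm.aestronglyMeasurable, fun σ hσ => ?_⟩
  have h1 := hL (2 * σ) (by linarith)
  have hgi : IntegrableOn (fun t => 2 * (Pool.Agent.Q260.GM.ph t ^ 2 * Real.exp (-(2 * σ * t))) +
      8 * Real.log q ^ 2 * (t ^ 2 * Real.exp (-t))) (Ioi 0) :=
    (h1.const_mul 2).add (Pool.Agent.Q24.HV.sq_int.const_mul _)
  refine Integrable.mono' hgi ((hm.norm.pow_const 2).mul (by fun_prop)).aestronglyMeasurable ?_
  filter_upwards [self_mem_ae_restrict (measurableSet_Ioi (a := (0 : ℝ)))] with t ht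
  have ht0 : (0 : ℝ) < t := ht
  rw [Real.norm_of_nonneg (by positivity)]
  have h2 := mul_le_mul_of_nonneg_right (Pool.Agent.Q24.HV.norm_sq_le q ht0) (Real.exp_pos (-(2 * σ * t))).le
  refine h2.trans ?_
  have h3 : Real.exp (-(2 * σ * t)) ≤ Real.exp (-t) := Real.exp_le_exp.2 (by nlinarith)
  have h4 : 8 * Real.log q ^ 2 * t ^ 2 * Real.exp (-(2 * σ * t)) ≤ 8 * Real.log q ^ 2 * t ^ 2 * Real.exp (-t) :=
    mul_le_mul_of_nonneg_left h3 (by positivity)
  rw [add_mul]
  linarith

/-- the transform for `Re s > 1` -/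
theorem one_right {q : ℕ} [NeZero q] (hA : Adm (fun t => psiC (1 : DirichletCharacter ℂ q) (Real.exp t) - (Real.exp t : ℂ)))
    {s : ℂ} (hs : 1 < s.re) :
    lap (fun t => psiC (1 : DirichletCharacter ℂ q) (Real.exp t)) s =
      lap (fun t => psiC (1 : DirichletCharacter ℂ q) (Real.exp t) - (Real.exp t : ℂ)) s + 1 / (s - 1) := by
  have h1 := ti hA (s := s) (by linarith)
  have hre : (1 - s).re < 0 := by simp; linarith
  have h2 : IntegrableOn (fun t : ℝ => cexp ((1 - s) * t)) (Ioi 0) := integrableOn_exp_mul_complex_Ioi hre 0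
  have h3 : ∫ t : ℝ in Ioi 0, cexp ((1 - s) * t) = 1 / (s - 1) := by
    have k1 : 1 - s ≠ 0 := by
      intro h
      rw [h] at hre
      simp at hre
    have k2 : s - 1 ≠ 0 := by
      intro h
      apply k1
      linear_combination -h
    rw [integral_exp_mul_complex_Ioi hre 0, Complex.ofReal_zero, mul_zero, Complex.exp_zero]
    field_simp
    ring
  unfold lap
  rw [← h3, ← integral_add h1 h2]
  refine setIntegral_congr_fun measurableSet_Ioi fun t _ => ?_
  simp only []
  rw [sub_mul, Complex.ofReal_exp]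
  have : cexp (t : ℂ) * cexp (-s * t) = cexp ((1 - s) * t) := by
    rw [← Complex.exp_add]
    congr 1
    ring
  rw [this]
  ring

theorem one_all {q : ℕ} [NeZero q] (hA : Adm (fun t => psiC (1 : DirichletCharacter ℂ q) (Real.exp t) - (Real.exp t : ℂ)))
    {s : ℂ} (hs : 1 / 2 < s.re) :
    deriv (LFunctionTrivChar₁ q) s =
      -(1 + s * lap (fun t => psiC (1 : DirichletCharacter ℂ q) (Real.exp t) - (Real.exp t : ℂ)) s) *
        LFunctionTrivChar₁ q s := by
  have hopen : IsOpen {z : ℂ | 1 / 2 < z.re} := isOpen_lt continuous_const Complex.continuous_re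
  have hconn : IsPreconnected {z : ℂ | 1 / 2 < z.re} := (convex_halfSpace_re_gt (1 / 2)).isPreconnected
  have hL : Differentiable ℂ (LFunctionTrivChar₁ q) := differentiable_LFunctionTrivChar₁ q
  have hA1 : AnalyticOnNhd ℂ (deriv (LFunctionTrivChar₁ q)) {z : ℂ | 1 / 2 < z.re} :=
    DifferentiableOn.analyticOnNhd hL.deriv.differentiableOn hopen
  have hA2 : AnalyticOnNhd ℂ (fun s => -(1 + s * lap (fun t => psiC (1 : DirichletCharacter ℂ q) (Real.exp t) -
      (Real.exp t : ℂ)) s) * LFunctionTrivChar₁ q s) {z : ℂ | 1 / 2 < z.re} := by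
    refine DifferentiableOn.analyticOnNhd (fun z hz => DifferentiableAt.differentiableWithinAt ?_) hopen
    exact (((differentiableAt_const _).add (differentiableAt_id.mul (lap_diff hA hz))).neg).mul hL.differentiableAt
  have h2 : (2 : ℂ) ∈ {z : ℂ | 1 / 2 < z.re} := by simp; norm_num
  refine hA1.eqOn_of_preconnected_of_eventuallyEq hA2 hconn h2 ?_ hs
  have h3 : {z : ℂ | 1 < z.re} ∈ 𝓝 (2 : ℂ) :=
    (isOpen_lt continuous_const Complex.continuous_re).mem_nhds (by simp)
  filter_upwards [h3] with z hz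
  have hz' : 1 < z.re := hz
  have hz1 : z ≠ 1 := by
    rintro rfl
    simp at hz'
  have e1 := right (1 : DirichletCharacter ℂ q) hz'
  unfold ld at e1
  rw [one_right hA hz'] at e1
  rw [deriv_LFunctionTrivChar₁_apply_of_ne_one q hz1, LFunctionTrivChar₁, Function.update_of_ne hz1]
  unfold LFunctionTrivChar
  rw [e1]
  have hz2 : z - 1 ≠ 0 := sub_ne_zero.2 hz1
  field_simp
  ring

/-- JOB ADM -/
theorem t_ADM : S_ADM := by
  intro q _ χ h
  by_cases hχ : χ = 1
  · subst hχ
    have hdl : dl (1 : DirichletCharacter ℂ q) = 1 := by simp [dl]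
    have hf : (fun t : ℝ => psiC (1 : DirichletCharacter ℂ q) (Real.exp t) -
        (dl (1 : DirichletCharacter ℂ q) : ℂ) * (Real.exp t : ℂ)) =
        fun t : ℝ => psiC (1 : DirichletCharacter ℂ q) (Real.exp t) - (Real.exp t : ℂ) := by
      funext t
      rw [hdl]
      simp
    rw [hf]
    have hA := adm_one h
    refine ⟨hA, fun s hs hs1 => ?_⟩
    have h0 := nonvan h hs (Or.inr hs1)
    refine ⟨h0, ?_⟩
    have h1 := one_all hA hs
    rw [deriv_LFunctionTrivChar₁_apply_of_ne_one q hs1, LFunctionTrivChar₁, Function.update_of_ne hs1] at h1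
    unfold LFunctionTrivChar at h1
    have hs0 : s ≠ 0 := by
      rintro rfl
      simp at hs
      linarith
    have hs2 : s - 1 ≠ 0 := sub_ne_zero.2 hs1
    rw [hdl]
    generalize lap (fun t => psiC (1 : DirichletCharacter ℂ q) (Real.exp t) - (Real.exp t : ℂ)) s = A at h1 ⊢
    generalize deriv (LFunction (1 : DirichletCharacter ℂ q)) s = D at h1 ⊢
    generalize LFunction (1 : DirichletCharacter ℂ q) s = L at h1 h0 ⊢
    push_cast
    field_simp
    linear_combination h1
  · have hdl : dl χ = 0 := by simp [dl, hχ]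
    have hf : (fun t : ℝ => psiC χ (Real.exp t) - (dl χ : ℂ) * (Real.exp t : ℂ)) =
        fun t : ℝ => psiC χ (Real.exp t) := by
      funext t
      rw [hdl]
      simp
    rw [hf]
    have hA := a_BG q χ hχ (fun s hs => nonvan h hs (Or.inl hχ))
    refine ⟨hA, fun s hs hs1 => ?_⟩
    obtain ⟨h1, h2⟩ := a_GR q χ hχ hA s hs
    refine ⟨h1, ?_⟩
    rw [logDeriv_apply] at h2
    have hs0 : s ≠ 0 := by
      rintro rfl
      simp at hs
      linarith
    rw [h2, hdl]
    unfold ld
    field_simp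
    simp

end Pool.Agent.Q190.GX
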