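import Pool.Agent.Q260.GX.Spec2
import Pool.Agent.Q24.HV.PR

/-!
# Project GX, job LAPd: the fields `phm`, `l2`, `lap` of `Good` for `dat S`
-/

set_option autoImplicit false

namespace Pool.Agent.Q190.GX

open MeasureTheory Filter Topology Set Complex
open DirichletCharacter
open Pool.Agent.Q260.GX
open Pool.Agent.Q260.GM (sx)
open Pool.Agent.Q253.HV (psiC lap Adm)
open Pool.Agent.Q162.HV (ti)

/-- the error for one character -/
noncomputable def fc {q : ℕ} (χ : DirichletCharacter ℂ q) (t : ℝ) : ℂ :=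
  psiC χ (Real.exp t) - dl χ * Real.exp t

theorem psiC_conj {q : ℕ} [NeZero q] (χ : DirichletCharacter ℂ q) (x : ℝ) :
    (starRingEnd ℂ) (psiC χ x) = psiC χ⁻¹ x := by
  unfold psiC
  rw [map_sum]
  refine Finset.sum_congr rfl fun n _ => ?_
  rw [map_mul, Complex.conj_ofReal]
  congr 1
  exact MulChar.star_apply' χ _

theorem psiS_eq {q : ℕ} [NeZero q] {S : Finset (DirichletCharacter ℂ q)} (hS : InvCl S) (x : ℝ) :
    ((psiS S x : ℝ) : ℂ) = ∑ χ ∈ S, psiC χ x := by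
  unfold psiS
  have h1 : (starRingEnd ℂ) (∑ χ ∈ S, psiC χ x) = ∑ χ ∈ S, psiC χ x := by
    rw [map_sum]
    refine Finset.sum_nbij' (fun χ => χ⁻¹) (fun χ => χ⁻¹) (fun χ h => hS.2 χ h) (fun χ h => hS.2 χ h)
      (fun χ _ => inv_inv χ) (fun χ _ => inv_inv χ) (fun χ _ => psiC_conj χ x)
  exact Complex.conj_eq_iff_re.1 h1

theorem ph_eq {q : ℕ} [NeZero q] {S : Finset (DirichletCharacter ℂ q)} (hS : InvCl S) (w : ℝ) :
    (((dat S).ph w : ℝ) : ℂ) = ∑ χ ∈ S, fc χ w := by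
  show ((psiS S (Real.exp w) - (∑ χ ∈ S, dl χ) * Real.exp w : ℝ) : ℂ) = _
  push_cast
  rw [psiS_eq hS, Finset.sum_mul, ← Finset.sum_sub_distrib]
  refine Finset.sum_congr rfl fun χ _ => ?_
  unfold fc
  push_cast
  rfl

theorem exp_half_lt {y : ℝ} (hy : y ≤ 1 / 2) : Real.exp y < 2 := by
  have h2 : Real.exp y ≤ Real.exp (1 / 2) := Real.exp_le_exp.2 hy
  have h3 : Real.exp (1 / 2) ^ 2 = Real.exp 1 := by
    rw [← Real.exp_nat_mul]; norm_num
  have h4 : Real.exp 1 < 4 := by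
    have := Real.exp_one_lt_d9
    linarith
  nlinarith [Real.exp_pos (1 / 2)]

theorem psiC_small {q : ℕ} (χ : DirichletCharacter ℂ q) {y : ℝ} (hy : y ≤ 1 / 2) :
    psiC χ (Real.exp y) = 0 := by
  unfold psiC
  apply Finset.sum_eq_zero
  intro n hn
  rw [Finset.mem_Icc] at hn
  have h2 : ⌊Real.exp y⌋₊ < 2 := by
    rw [Nat.floor_lt (Real.exp_pos y).le]
    exact_mod_cast exp_half_lt hy
  have h3 : n = 1 := by omega
  rw [h3]
  simp

theorem initial {f : ℝ → ℂ} {m : ℂ} (hsm : ∀ y : ℝ, y ≤ 1 / 2 → f y = -(m * cexp y)) {κ : ℝ} (hκ : 0 < κ)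
    (hκ2 : κ ≤ 1 / 2) {s : ℂ} (hs1 : s ≠ 1) :
    ∫ y in (0 : ℝ)..κ, f y * cexp (-s * y) = m * ((cexp ((1 - s) * κ) - 1) / (s - 1)) := by
  have e : ∫ y in (0 : ℝ)..κ, f y * cexp (-s * y) = ∫ y in (0 : ℝ)..κ, -m * cexp ((1 - s) * y) := by
    refine intervalIntegral.integral_congr fun y hy => ?_
    rw [uIcc_of_le hκ.le] at hy
    rw [hsm y (hy.2.trans hκ2)]
    have : cexp ((1 - s) * y) = cexp y * cexp (-s * y) := by
      rw [← Complex.exp_add]
      congr 1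
      ring
    rw [this]
    ring
  have hs1' : s - 1 ≠ 0 := sub_ne_zero.2 hs1
  have hs1'' : 1 - s ≠ 0 := sub_ne_zero.2 (Ne.symm hs1)
  rw [e, intervalIntegral.integral_const_mul, integral_exp_mul_complex hs1'']
  rw [Complex.ofReal_zero, mul_zero, Complex.exp_zero]
  field_simp
  ring

theorem shift_int {f : ℝ → ℂ} (h : Adm f) {κ : ℝ} (hκ : 0 < κ) {s : ℂ} (hs : 1 / 2 < s.re) :
    IntegrableOn (fun u : ℝ => f (u + κ) * cexp (-s * (u + κ : ℝ))) (Ioi 0) := by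
  have h1 : IntegrableOn (fun w : ℝ => f w * cexp (-s * w)) (Ioi κ) :=
    (ti h hs).mono_set (Ioi_subset_Ioi hκ.le)
  have h2 := ((measurePreserving_add_right volume κ).integrableOn_comp_preimage
    (MeasurableEquiv.addRight κ).measurableEmbedding (s := Ioi κ)
    (f := fun w : ℝ => f w * cexp (-s * w))).2 h1
  rw [preimage_add_const_Ioi, sub_self] at h2
  exact h2

theorem shift_val {f : ℝ → ℂ} {m : ℂ} (h : Adm f) (hsm : ∀ y : ℝ, y ≤ 1 / 2 → f y = -(m * cexp y)) {κ : ℝ}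
    (hκ : 0 < κ) (hκ2 : κ ≤ 1 / 2) {s : ℂ} (hs : 1 / 2 < s.re) (hs1 : s ≠ 1) :
    ∫ u in Ioi (0 : ℝ), f (u + κ) * cexp (-s * (u + κ : ℝ)) =
      lap f s - m * ((cexp ((1 - s) * κ) - 1) / (s - 1)) := by
  have h2 := (measurePreserving_add_right volume κ).setIntegral_preimage_emb
    (MeasurableEquiv.addRight κ).measurableEmbedding
    (fun w : ℝ => f w * cexp (-s * w)) (Ioi κ)
  rw [preimage_add_const_Ioi, sub_self] at h2
  rw [h2]
  have h3 := intervalIntegral.integral_Ioi_sub_Ioi (ti h hs) hκ.le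
  rw [initial hsm hκ hκ2 hs1] at h3
  have h4 : lap f s = ∫ w in Ioi (0 : ℝ), f w * cexp (-s * w) := rfl
  rw [← h4] at h3
  rw [← h3]
  ring

theorem Dl_term (f : ℝ → ℂ) (κ u : ℝ) (s : ℂ) :
    (cexp (-(u / 2)) * (f (u + κ) - f u)) * cexp (-((s - 1 / 2) * u)) =
    cexp (κ * s) * (f (u + κ) * cexp (-s * (u + κ : ℝ))) - f u * cexp (-s * u) := by
  have e1 : cexp (-((s - 1 / 2) * u)) = cexp (u / 2) * cexp (-s * u) := by
    rw [← Complex.exp_add]; congr 1; ring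
  have e2 : cexp (κ * s) * (f (u + κ) * cexp (-s * (u + κ : ℝ))) = f (u + κ) * cexp (-s * u) := by
    rw [mul_left_comm, ← Complex.exp_add]; congr 2; push_cast; ring
  have e3 : cexp (-(u / 2)) * cexp (u / 2) = 1 := by
    rw [← Complex.exp_add]; simp
  rw [e2, e1]
  linear_combination (f (u + κ) - f u) * cexp (-s * u) * e3

theorem laplace {f : ℝ → ℂ} {m ℓ : ℂ} (h : Adm f) (hsm : ∀ y : ℝ, y ≤ 1 / 2 → f y = -(m * cexp y)) {κ : ℝ}
    (hκ : 0 < κ) (hκ2 : κ ≤ 1 / 2) {s : ℂ} (hs : 1 / 2 < s.re) (hs1 : s ≠ 1)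
    (hl : lap f s = -ℓ / s - m / (s - 1)) :
    IntegrableOn (fun u : ℝ => (cexp (-(u / 2)) * (f (u + κ) - f u)) * cexp (-((s - 1 / 2) * u))) (Ioi 0) ∧
    ∫ u in Ioi (0 : ℝ), (cexp (-(u / 2)) * (f (u + κ) - f u)) * cexp (-((s - 1 / 2) * u)) =
      -((cexp (κ * s) - 1) / s) * ℓ - m * ((cexp κ - 1) / (s - 1)) := by
  have h1 := (shift_int h hκ hs).const_mul (cexp (κ * s))
  have h2 := ti h hs
  have e : (fun u : ℝ => (cexp (-(u / 2)) * (f (u + κ) - f u)) * cexp (-((s - 1 / 2) * u))) = fun u : ℝ =>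
      cexp (κ * s) * (f (u + κ) * cexp (-s * (u + κ : ℝ))) - f u * cexp (-s * u) := by
    funext u
    exact Dl_term f κ u s
  have hs1' : s - 1 ≠ 0 := sub_ne_zero.2 hs1
  have hs0 : s ≠ 0 := by
    rintro rfl
    simp at hs
    linarith
  rw [e]
  refine ⟨h1.sub h2, ?_⟩
  rw [integral_sub h1 h2, integral_const_mul, shift_val h hsm hκ hκ2 hs hs1]
  have h4 : lap f s = ∫ w in Ioi (0 : ℝ), f w * cexp (-s * w) := rfl
  rw [← h4, hl]
  have e5 : cexp κ = cexp (κ * s) * cexp ((1 - s) * κ) := by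
    rw [← Complex.exp_add]; congr 1; ring
  rw [e5]
  field_simp
  ring

theorem psiC_meas {q : ℕ} [NeZero q] (χ : DirichletCharacter ℂ q) :
    Measurable (fun t : ℝ => psiC χ (Real.exp t)) := by
  have h1 : Measurable (fun n : ℕ => ∑ n ∈ Finset.Icc 1 n,
      ((ArithmeticFunction.vonMangoldt n : ℝ) : ℂ) * χ (n : ZMod q)) := measurable_from_top
  exact h1.comp (Nat.measurable_floor.comp Real.measurable_exp)

/-- JOB LAPd -/
theorem t_LAPd (h1 : S_ADM) : S_LAPd := by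
  intro q _ S hS hG
  have hA : ∀ χ ∈ S, Adm (fc χ) := fun χ hχ => (h1 q χ (hG χ hχ)).1
  have hm : Measurable (dat S).ph := by
    have e : (dat S).ph = fun w => (∑ χ ∈ S, psiC χ (Real.exp w)).re - (∑ χ ∈ S, dl χ) * Real.exp w := rfl
    rw [e]
    refine Measurable.sub ?_ (by fun_prop)
    exact Complex.measurable_re.comp (Finset.measurable_sum S fun χ _ => psiC_meas χ)
  refine ⟨hm, ?_, ?_⟩
  · intro θ hθ
    have h2 : IntegrableOn (fun w => (S.card : ℝ) * ∑ χ ∈ S, ‖fc χ w‖ ^ 2 * Real.exp (-(θ * w))) (Ioi 0) := by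
      refine Integrable.const_mul ?_ _
      refine integrable_finsetSum _ fun χ hχ => ?_
      have h3 := (hA χ hχ).2 (θ / 2) (by linarith)
      have e : (2 : ℝ) * (θ / 2) = θ := by ring
      rw [e] at h3
      exact h3
    refine Integrable.mono' h2 ((hm.pow_const 2).mul (by fun_prop)).aestronglyMeasurable
      (Eventually.of_forall fun w => ?_)
    rw [Real.norm_of_nonneg (by positivity)]
    have h3 : (dat S).ph w ^ 2 = ‖∑ χ ∈ S, fc χ w‖ ^ 2 := by
      rw [← ph_eq hS, Complex.norm_real, Real.norm_eq_abs, sq_abs]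
    rw [h3, ← Finset.sum_mul, ← mul_assoc]
    refine mul_le_mul_of_nonneg_right ?_ (Real.exp_pos _).le
    calc ‖∑ χ ∈ S, fc χ w‖ ^ 2 ≤ (∑ χ ∈ S, ‖fc χ w‖) ^ 2 := by
          gcongr
          exact norm_sum_le _ _
      _ ≤ _ := sq_sum_le_card_mul_sum_sq
  · intro κ x t hκ hκ2 hx hx4
    set s : ℂ := sx x t with hs
    have hsd : s = ((1 / 2 + x : ℝ) : ℂ) + (t : ℂ) * I := rfl
    have hsre : s.re = 1 / 2 + x := by rw [hsd]; simp
    have hs2 : 1 / 2 < s.re := by rw [hsre]; linarith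
    have hs1 : s ≠ 1 := by
      intro h
      rw [h] at hsre
      simp at hsre
      linarith
    have hxt : (x : ℂ) + t * I = s - 1 / 2 := by
      rw [hsd]
      push_cast
      ring
    have hχ : ∀ χ ∈ S, _ := fun χ hχ => laplace (f := fc χ) (m := (dl χ : ℂ))
      (ℓ := deriv (LFunction χ) s / LFunction χ s) (hA χ hχ) (fun y hy => by
        unfold fc
        rw [psiC_small χ hy, zero_sub, Complex.ofReal_exp]) hκ hκ2 hs2 hs1
      (by
        have h3 := ((h1 q χ (hG χ hχ)).2 s hs2 hs1).2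
        have h4 : lap (fc χ) s = lap (fun t => psiC χ (Real.exp t) - dl χ * Real.exp t) s := rfl
        rw [h4, h3])
    have e : (fun u : ℝ => ((dat S).Dl κ u : ℂ) * cexp (-((x + t * I) * u))) = fun u : ℝ =>
        ∑ χ ∈ S, (cexp (-(u / 2)) * (fc χ (u + κ) - fc χ u)) * cexp (-((s - 1 / 2) * u)) := by
      funext u
      rw [hxt, ← Finset.sum_mul, ← Finset.mul_sum, Finset.sum_sub_distrib, ← ph_eq hS, ← ph_eq hS]
      unfold Dat.Dl
      push_cast
      rfl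
    rw [e]
    refine ⟨integrable_finsetSum _ fun χ h => (hχ χ h).1, ?_⟩
    rw [integral_finsetSum _ fun χ h => (hχ χ h).1, Finset.sum_congr rfl fun χ h => (hχ χ h).2]
    rw [Finset.sum_sub_distrib, ← Finset.mul_sum, ← Finset.sum_mul]
    show _ = -((cexp (κ * s) - 1) / s) * (∑ χ ∈ S, deriv (LFunction χ) s / LFunction χ s) -
      ((∑ χ ∈ S, dl χ : ℝ) : ℂ) * ((cexp κ - 1) / (s - 1))
    push_cast
    rfl

end Pool.Agent.Q190.GX
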